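import Pool.Agent.Y68.NS.REP

/-!
Fields with rapidly decreasing coefficients: the reduced vector field.
-/

open Set Filter Topology MeasureTheory
open scoped SchwartzMap ContDiff

set_option autoImplicit false

namespace Pool.Agent.Y68.NS

open Pool.Agent.Y5

theorem hs1 {f : ℕ → ℝ} {c : ℝ} (n : ℕ) (hn : f n = c) (h : ∀ m, m ≠ n → f m = 0) :
    HasSum f c := by
  rw [← hn]
  exact hasSum_single n h

theorem hs2 {f : ℕ → ℝ} {c : ℝ} (S : Finset ℕ) (hc : ∑ j ∈ S, f j = c)
    (h : ∀ j, j ∉ S → f j = 0) : HasSum f c := by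
  rw [← hc]
  exact hasSum_sum_of_ne_finset_zero h

section

variable {s μ C b : ℝ} {B : ℕ → ℝ} {φ : 𝓢(E3, E3)} {x : ℕ → ℝ} {u : E3 → E3}

theorem coef (hs : 1 < s) (hP : Packet s φ μ C B) (hx : Rap s x)
    (hu : ∀ y, HasSum (fun n => x n • packet s φ n y) (u y)) (n : ℕ) :
    ∫ y, inner ℝ (u y) (packet s φ n y) = x n := by
  obtain ⟨v, hv⟩ := packet_schwartz (φ := φ) hs n
  have h1 := pair_sum hs hx hu (packet s φ n) v hv
  have h2 : HasSum (fun m => x m * ∫ y, inner ℝ (packet s φ m y) (packet s φ n y)) (x n) := by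
    have h3 := hasSum_single (f := fun m => x m * ∫ y, inner ℝ (packet s φ m y) (packet s φ n y))
      n (by
        intro m hm
        rw [hP.mass, if_neg hm, mul_zero])
    rwa [hP.mass, if_pos rfl, mul_one] at h3
  exact h1.unique h2

theorem coefG (hs : 1 < s) (hP : Packet s φ μ C B) (hx : Rap s x)
    (hu : ∀ y, HasSum (fun n => x n • packet s φ n y) (u y)) (n : ℕ) :
    gradIn u (packet s φ n) = μ * s ^ (4 * n) * x n := by
  obtain ⟨v, hv⟩ := packet_schwartz (φ := φ) hs n
  have h1 := grad_sum hs hx hu (packet s φ n) v hv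
  have h2 : HasSum (fun m => x m * gradIn (packet s φ m) (packet s φ n))
      (μ * s ^ (4 * n) * x n) := by
    have h3 := hasSum_single (f := fun m => x m * gradIn (packet s φ m) (packet s φ n))
      n (by
        intro m hm
        rw [hP.grad, if_neg hm, mul_zero])
    rw [hP.grad, if_pos rfl, mul_comm] at h3
    exact h3
  exact h1.unique h2

theorem gradIn_comm (v w : E3 → E3) : gradIn v w = gradIn w v := by
  rw [gradIn_eq, gradIn_eq]
  congr 1
  funext y
  exact bl_comm _ _

theorem energy (hs : 1 < s) (hP : Packet s φ μ C B) (hx : Rap s x)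
    (hu : ∀ y, HasSum (fun n => x n • packet s φ n y) (u y)) :
    ∫ y, ‖u y‖ ^ 2 = ∑' n, x n ^ 2 := by
  obtain ⟨v, hv⟩ := exists_schwartz hs hx hu
  have h1 := pair_sum hs hx hu u v hv
  have h2 : (fun n => x n * ∫ y, inner ℝ (packet s φ n y) (u y)) = fun n => x n ^ 2 := by
    funext n
    have h3 : ∫ y, inner ℝ (packet s φ n y) (u y) = x n := by
      rw [← coef hs hP hx hu n]
      congr 1
      funext y
      exact real_inner_comm _ _
    rw [h3, sq]
  rw [h2] at h1
  have h4 : ∫ y, inner ℝ (u y) (u y) = ∫ y, ‖u y‖ ^ 2 := by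
    congr 1
    funext y
    exact real_inner_self_eq_norm_sq _
  rw [h4] at h1
  exact h1.tsum_eq.symm

theorem gradE (hs : 1 < s) (hP : Packet s φ μ C B) (hx : Rap s x)
    (hu : ∀ y, HasSum (fun n => x n • packet s φ n y) (u y)) :
    gradIn u u = μ * ∑' n, s ^ (4 * n) * x n ^ 2 := by
  obtain ⟨v, hv⟩ := exists_schwartz hs hx hu
  have h1 := grad_sum hs hx hu u v hv
  have h2 : (fun n => x n * gradIn (packet s φ n) u) = fun n => μ * (s ^ (4 * n) * x n ^ 2) := by
    funext n
    rw [gradIn_comm, coefG hs hP hx hu n]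
    ring
  rw [h2] at h1
  rw [← h1.tsum_eq, tsum_mul_left]

/-- the inner sum of the trilinear form -/
theorem tri_inner (hs : 1 < s) (hP : Packet s φ μ C B) (hx : Rap s x)
    (hu : ∀ y, HasSum (fun n => x n • packet s φ n y) (u y)) (i n : ℕ) :
    tri (packet s φ i) u (packet s φ n) =
      (if i = n then -∑ j ∈ Finset.range n, s ^ (5 * j) * B (n - j) * x j else 0)
      + (if n < i then s ^ (5 * n) * B (i - n) * x i else 0)
      + (if n = i + 1 then -(s ^ (5 * i) * C * x i) else 0)
      + (if i = n then s ^ (5 * n) * C * x (n + 1) else 0) := by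
  obtain ⟨v, hv⟩ := packet_schwartz (φ := φ) hs i
  obtain ⟨v', hv'⟩ := packet_schwartz (φ := φ) hs n
  have h1 := tri_sum2 hs hx hu (packet s φ i) (packet s φ n) v v' hv hv'
  have e1 : HasSum (fun j => x j * (if i = n ∧ j < n then -(s ^ (5 * j) * B (n - j)) else 0))
      (if i = n then -∑ j ∈ Finset.range n, s ^ (5 * j) * B (n - j) * x j else 0) := by
    by_cases hin : i = n
    · rw [if_pos hin]
      refine hs2 (Finset.range n) ?_ ?_
      · rw [← Finset.sum_neg_distrib]
        apply Finset.sum_congr rfl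
        intro j hj
        rw [if_pos ⟨hin, Finset.mem_range.1 hj⟩]
        ring
      · intro j hj
        rw [Finset.mem_range] at hj
        rw [if_neg (fun h => hj h.2), mul_zero]
    · rw [if_neg hin]
      have h2 : (fun j => x j * (if i = n ∧ j < n then -(s ^ (5 * j) * B (n - j)) else 0)) =
          fun _ => 0 := by
        funext j
        rw [if_neg (fun h => hin h.1), mul_zero]
      rw [h2]
      exact hasSum_zero
  have e2 : HasSum (fun j => x j * (if i = j ∧ n < i then s ^ (5 * n) * B (i - n) else 0))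
      (if n < i then s ^ (5 * n) * B (i - n) * x i else 0) := by
    refine hs1 i ?_ ?_
    · by_cases h : n < i
      · rw [if_pos ⟨rfl, h⟩, if_pos h]; ring
      · rw [if_neg (fun hh => h hh.2), if_neg h, mul_zero]
    · intro j hj
      rw [if_neg (fun h => hj h.1.symm), mul_zero]
  have e3 : HasSum (fun j => x j * (if i = j ∧ n = i + 1 then -(s ^ (5 * i) * C) else 0))
      (if n = i + 1 then -(s ^ (5 * i) * C * x i) else 0) := by
    refine hs1 i ?_ ?_
    · by_cases h : n = i + 1
      · rw [if_pos ⟨rfl, h⟩, if_pos h]; ring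
      · rw [if_neg (fun hh => h hh.2), if_neg h, mul_zero]
    · intro j hj
      rw [if_neg (fun h => hj h.1.symm), mul_zero]
  have e4 : HasSum (fun j => x j * (if i = n ∧ j = n + 1 then s ^ (5 * n) * C else 0))
      (if i = n then s ^ (5 * n) * C * x (n + 1) else 0) := by
    refine hs1 (n + 1) ?_ ?_
    · by_cases h : i = n
      · rw [if_pos ⟨h, rfl⟩, if_pos h]; ring
      · rw [if_neg (fun hh => h hh.1), if_neg h, mul_zero]
    · intro j hj
      rw [if_neg (fun h => hj h.2), mul_zero]
  have h2 := ((e1.add e2).add e3).add e4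
  refine h1.unique (h2.congr_fun ?_)
  intro j
  rw [hP.tri]
  ring

theorem tri_outer (hs : 1 < s) (hB : ∀ j, |B j| ≤ b) (hP : Packet s φ μ C B) (hx : Rap s x)
    (hu : ∀ y, HasSum (fun n => x n • packet s φ n y) (u y)) (n : ℕ) :
    tri u u (packet s φ n) =
      -(x n * ∑ j ∈ Finset.range n, s ^ (5 * j) * B (n - j) * x j)
      + s ^ (5 * n) * ∑' m : ℕ, B (m + 1) * x (n + 1 + m) ^ 2
      - (if n = 0 then 0 else C * s ^ (5 * (n - 1)) * x (n - 1) ^ 2)
      + C * s ^ (5 * n) * x n * x (n + 1) := by
  have hs0 : 0 < s := zero_lt_one.trans hs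
  obtain ⟨v, hv⟩ := exists_schwartz hs hx hu
  obtain ⟨v', hv'⟩ := packet_schwartz (φ := φ) hs n
  have h1 := tri_sum1 hs hx hu u (packet s φ n) v v' hv hv'
  have e1 : HasSum (fun i => x i *
      (if i = n then -∑ j ∈ Finset.range n, s ^ (5 * j) * B (n - j) * x j else 0))
      (-(x n * ∑ j ∈ Finset.range n, s ^ (5 * j) * B (n - j) * x j)) := by
    have h2 := hasSum_single (f := fun i => x i *
      (if i = n then -∑ j ∈ Finset.range n, s ^ (5 * j) * B (n - j) * x j else 0)) n (by
        intro j hj
        rw [if_neg hj, mul_zero])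
    simp only [if_true] at h2
    rw [mul_neg] at h2
    exact h2
  have e2 : HasSum (fun i => x i * (if n < i then s ^ (5 * n) * B (i - n) * x i else 0))
      (s ^ (5 * n) * ∑' m : ℕ, B (m + 1) * x (n + 1 + m) ^ 2) := by
    have hsum : Summable (fun m : ℕ => B (m + 1) * x (n + 1 + m) ^ 2) := by
      obtain ⟨M, hM⟩ := hx 0
      have hM' : ∀ m, |x m| ≤ M := by
        intro m
        have := hM m
        rwa [Nat.zero_mul, pow_zero, one_mul] at this
      have hxs : Summable (fun m : ℕ => |x m|) := by
        have := hx.summable hs 0 1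
        simpa using this
      have hinj : Function.Injective (fun m : ℕ => n + 1 + m) := fun a c h =>
        Nat.add_left_cancel h
      have hxs' : Summable (fun m : ℕ => (b * M) * |x (n + 1 + m)|) :=
        (hxs.comp_injective hinj).mul_left _
      apply Summable.of_norm_bounded hxs'
      intro m
      rw [Real.norm_eq_abs, abs_mul, sq, abs_mul]
      calc |B (m + 1)| * (|x (n + 1 + m)| * |x (n + 1 + m)|)
          ≤ b * (M * |x (n + 1 + m)|) := by
            apply mul_le_mul (hB _) _ (by positivity) ((abs_nonneg _).trans (hB 0))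
            exact mul_le_mul_of_nonneg_right (hM' _) (abs_nonneg _)
        _ = (b * M) * |x (n + 1 + m)| := by ring
    have h2 : HasSum (fun m : ℕ => s ^ (5 * n) * (B (m + 1) * x (n + 1 + m) ^ 2))
        (s ^ (5 * n) * ∑' m : ℕ, B (m + 1) * x (n + 1 + m) ^ 2) := hsum.hasSum.mul_left _
    have hinj : Function.Injective (fun m : ℕ => n + 1 + m) := fun a c h =>
      Nat.add_left_cancel h
    rw [← hinj.hasSum_iff]
    · refine h2.congr_fun ?_
      intro m
      simp only [Function.comp_apply]
      rw [if_pos (by omega)]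
      have : n + 1 + m - n = m + 1 := by omega
      rw [this]
      ring
    · intro i hi
      rw [if_neg, mul_zero]
      intro hlt
      apply hi
      exact ⟨i - (n + 1), by simp only; omega⟩
  have e3 : HasSum (fun i => x i * (if n = i + 1 then -(s ^ (5 * i) * C * x i) else 0))
      (-(if n = 0 then 0 else C * s ^ (5 * (n - 1)) * x (n - 1) ^ 2)) := by
    cases n with
    | zero =>
      rw [if_pos rfl, neg_zero]
      have h2 : (fun i => x i * (if 0 = i + 1 then -(s ^ (5 * i) * C * x i) else 0)) =
          fun _ => 0 := by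
        funext i
        rw [if_neg (by omega), mul_zero]
      rw [h2]
      exact hasSum_zero
    | succ n =>
      rw [if_neg (Nat.succ_ne_zero n)]
      refine hs1 n ?_ ?_
      · rw [if_pos rfl, Nat.add_sub_cancel]
        ring
      · intro j hj
        rw [if_neg (by omega), mul_zero]
  have e4 : HasSum (fun i => x i * (if i = n then s ^ (5 * n) * C * x (n + 1) else 0))
      (C * s ^ (5 * n) * x n * x (n + 1)) := by
    refine hs1 n ?_ ?_
    · rw [if_pos rfl]; ring
    · intro j hj
      rw [if_neg hj, mul_zero]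
  have h2 := ((e1.add e2).add e3).add e4
  have h3 := h1.unique (h2.congr_fun (by
    intro i
    rw [tri_inner hs hP hx hu i n]
    ring))
  rw [h3]
  ring

end

theorem t_REP : S_REP := by
  intro s μ C b B φ hs hB hP
  refine ⟨fun x hx y => summable_packet hs hx y, ?_⟩
  intro x u hx hu
  refine ⟨exists_schwartz hs hx hu, div_u hs hP.div hx hu, coef hs hP hx hu,
    energy hs hP hx hu, gradE hs hP hx hu, ?_⟩
  intro ν n
  rw [coefG hs hP hx hu n, tri_outer hs hB hP hx hu n]
  unfold vf
  ring

end Pool.Agent.Y68.NS
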