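import Pool.Agent.Y5.Stm2

/-!
Sup norm bounds for packet sums.
-/

open Set Filter Topology MeasureTheory
open scoped SchwartzMap

set_option autoImplicit false

namespace Pool.Agent.Y68.NS

open Pool.Agent.Y5

theorem norm_packet (s : ℝ) (hs : 0 < s) (φ : E3 → E3) (n : ℕ) (y : E3) :
    ‖packet s φ n y‖ = s ^ (3 * n) * ‖φ (s ^ (2 * n) • y)‖ := by
  unfold packet
  rw [norm_smul, Real.norm_of_nonneg (pow_pos hs _).le]

theorem integral_norm_packet (s : ℝ) (hs : 0 < s) (φ : 𝓢(E3, E3)) (n : ℕ) :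
    Integrable (fun y => ‖packet s φ n y‖) ∧
      s ^ (3 * n) * ∫ y, ‖packet s φ n y‖ = ∫ y, ‖φ y‖ := by
  have h1 : (fun y => ‖packet s φ n y‖) = fun y => s ^ (3 * n) * ‖φ (s ^ (2 * n) • y)‖ :=
    funext fun y => norm_packet s hs φ n y
  rw [h1]
  constructor
  · exact ((φ.integrable.norm).comp_smul (pow_pos hs _).ne').const_mul _
  · rw [integral_const_mul, Measure.integral_comp_smul volume (fun y => ‖φ y‖)]
    rw [finrank_euclideanSpace, Fintype.card_fin, smul_eq_mul, abs_of_pos (by positivity)]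
    have h2 : s ^ (3 * n) * (s ^ (3 * n) * (((s ^ (2 * n)) ^ 3)⁻¹ * ∫ y, ‖φ y‖)) =
        (s ^ (3 * n) * s ^ (3 * n) * ((s ^ (2 * n)) ^ 3)⁻¹) * ∫ y, ‖φ y‖ := by ring
    rw [h2]
    have h3 : s ^ (3 * n) * s ^ (3 * n) * ((s ^ (2 * n)) ^ 3)⁻¹ = 1 := by
      rw [← pow_mul, ← pow_add]
      have : 3 * n + 3 * n = 2 * n * 3 := by ring
      rw [this, mul_inv_cancel₀ (pow_pos hs _).ne']
    rw [h3, one_mul]

theorem t_SUP : S_SUP := by
  intro s φ hs
  have hs0 : 0 < s := zero_lt_one.trans hs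
  refine ⟨⟨(∫ y, ‖φ y‖) + 1, ?_, ?_⟩, ?_⟩
  · have : 0 ≤ ∫ y, ‖φ y‖ := integral_nonneg fun y => norm_nonneg _
    linarith
  · intro u n M hM
    have hM0 : 0 ≤ M := (norm_nonneg _).trans (hM 0)
    obtain ⟨hint, heq⟩ := integral_norm_packet s hs0 φ n
    have h1 : ‖∫ y, inner ℝ (u y) (packet s φ n y)‖ ≤ ∫ y, M * ‖packet s φ n y‖ := by
      apply norm_integral_le_of_norm_le (hint.const_mul M)
      filter_upwards with y
      exact (norm_inner_le_norm _ _).trans (mul_le_mul_of_nonneg_right (hM y) (norm_nonneg _))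
    rw [integral_const_mul] at h1
    rw [← Real.norm_eq_abs]
    calc s ^ (3 * n) * ‖∫ y, inner ℝ (u y) (packet s φ n y)‖
        ≤ s ^ (3 * n) * (M * ∫ y, ‖packet s φ n y‖) :=
          mul_le_mul_of_nonneg_left h1 (pow_pos hs0 _).le
      _ = M * (s ^ (3 * n) * ∫ y, ‖packet s φ n y‖) := by ring
      _ = M * ∫ y, ‖φ y‖ := by rw [heq]
      _ ≤ ((∫ y, ‖φ y‖) + 1) * M := by nlinarith
  · intro A r hr
    obtain ⟨C, hC, hdec⟩ := φ.decay 2 0
    have hdec' : ∀ x, ‖x‖ ^ 2 * ‖φ x‖ ≤ C := by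
      intro x
      have := hdec x
      rwa [norm_iteratedFDeriv_zero] at this
    refine ⟨|A| * C / r ^ 2 * (1 - s⁻¹)⁻¹, ?_⟩
    intro x u hx hu y hy
    have hy0 : 0 < ‖y‖ := hr.trans_le hy
    have hterm : ∀ n, ‖x n • packet s φ n y‖ ≤ |A| * C / r ^ 2 * (s⁻¹) ^ n := by
      intro n
      rw [norm_smul, norm_packet s hs0, Real.norm_eq_abs]
      have h1 : ‖φ (s ^ (2 * n) • y)‖ ≤ C / (s ^ (4 * n) * r ^ 2) := by
        rw [le_div_iff₀ (by positivity)]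
        have h2 := hdec' (s ^ (2 * n) • y)
        rw [norm_smul, Real.norm_of_nonneg (pow_pos hs0 _).le] at h2
        have h3 : s ^ (4 * n) * r ^ 2 ≤ (s ^ (2 * n) * ‖y‖) ^ 2 := by
          rw [mul_pow, ← pow_mul]
          have : 2 * n * 2 = 4 * n := by ring
          rw [this]
          exact mul_le_mul_of_nonneg_left (pow_le_pow_left₀ hr.le hy 2) (pow_pos hs0 _).le
        calc ‖φ (s ^ (2 * n) • y)‖ * (s ^ (4 * n) * r ^ 2)
            ≤ ‖φ (s ^ (2 * n) • y)‖ * (s ^ (2 * n) * ‖y‖) ^ 2 :=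
              mul_le_mul_of_nonneg_left h3 (norm_nonneg _)
          _ ≤ C := by rw [mul_comm]; exact h2
      have h4 : |x n| ≤ |A| := (hx n).trans (le_abs_self A)
      calc |x n| * (s ^ (3 * n) * ‖φ (s ^ (2 * n) • y)‖)
          ≤ |A| * (s ^ (3 * n) * (C / (s ^ (4 * n) * r ^ 2))) := by gcongr
        _ = |A| * C / r ^ 2 * (s⁻¹) ^ n := by
          have h5 : s ^ (4 * n) = s ^ (3 * n) * s ^ n := by rw [← pow_add]; congr 1; ring
          rw [h5, inv_pow]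
          have : s ^ n ≠ 0 := (pow_pos hs0 _).ne'
          have : s ^ (3 * n) ≠ 0 := (pow_pos hs0 _).ne'
          field_simp
    have hgeo : HasSum (fun n : ℕ => |A| * C / r ^ 2 * (s⁻¹) ^ n)
        (|A| * C / r ^ 2 * (1 - s⁻¹)⁻¹) :=
      (hasSum_geometric_of_lt_one (inv_nonneg.2 hs0.le) (inv_lt_one_of_one_lt₀ hs)).mul_left _
    rw [← (hu y).tsum_eq]
    exact tsum_of_norm_bounded hgeo hterm

end Pool.Agent.Y68.NS
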