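import Pool.Agent.Y68.NS.REPA

/-!
Fields with rapidly decreasing coefficients: the quantities of the reduced system.
-/

open Set Filter Topology MeasureTheory
open scoped SchwartzMap ContDiff

set_option autoImplicit false

namespace Pool.Agent.Y68.NS

open Pool.Agent.Y5

theorem hasSum_inner_right {a : ℕ → E3} {b : E3} (h : HasSum a b) (w : E3) :
    HasSum (fun n => inner ℝ w (a n)) (inner ℝ w b) :=
  (innerSL ℝ w).hasSum h

theorem hasSum_inner_left {a : ℕ → E3} {b : E3} (h : HasSum a b) (w : E3) :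
    HasSum (fun n => inner ℝ (a n) w) (inner ℝ b w) := by
  have h1 := hasSum_inner_right h w
  rw [real_inner_comm] at h1
  refine h1.congr_fun ?_
  intro n
  exact real_inner_comm _ _

/-- the bilinear form of gradients -/
noncomputable def bl (A W : E3 →L[ℝ] E3) : ℝ :=
  ∑ i : Fin 3, inner ℝ (A (EuclideanSpace.single i 1)) (W (EuclideanSpace.single i 1))

theorem gradIn_eq (v w : E3 → E3) : gradIn v w = ∫ y, bl (fderiv ℝ v y) (fderiv ℝ w y) := rfl

theorem bl_comm (A W : E3 →L[ℝ] E3) : bl A W = bl W A := by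
  unfold bl
  exact Finset.sum_congr rfl fun i _ => real_inner_comm _ _

theorem bl_smul (c : ℝ) (A W : E3 →L[ℝ] E3) : bl (c • A) W = c * bl A W := by
  unfold bl
  rw [Finset.mul_sum]
  refine Finset.sum_congr rfl fun i _ => ?_
  rw [smul_apply, real_inner_smul_left]

theorem norm_e (i : Fin 3) : ‖(EuclideanSpace.single i 1 : E3)‖ = 1 := by
  simp

theorem bl_bound (A W : E3 →L[ℝ] E3) : |bl A W| ≤ 3 * ‖A‖ * ‖W‖ := by
  unfold bl
  refine (Finset.abs_sum_le_sum_abs _ _).trans ?_
  have h : ∀ i ∈ (Finset.univ : Finset (Fin 3)),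
      |inner ℝ (A (EuclideanSpace.single i 1)) (W (EuclideanSpace.single i 1))| ≤
        ‖A‖ * ‖W‖ := by
    intro i _
    refine (abs_real_inner_le_norm _ _).trans ?_
    have h1 := A.le_opNorm (EuclideanSpace.single i 1)
    have h2 := W.le_opNorm (EuclideanSpace.single i 1)
    rw [norm_e, mul_one] at h1 h2
    exact mul_le_mul h1 h2 (norm_nonneg _) (norm_nonneg _)
  refine (Finset.sum_le_card_nsmul _ _ _ h).trans ?_
  rw [Finset.card_univ, Fintype.card_fin, nsmul_eq_mul]
  push_cast
  linarith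

theorem hasSum_bl {a : ℕ → (E3 →L[ℝ] E3)} {b : E3 →L[ℝ] E3} (h : HasSum a b)
    (W : E3 →L[ℝ] E3) : HasSum (fun n => bl (a n) W) (bl b W) := by
  unfold bl
  apply hasSum_sum
  intro i _
  apply hasSum_inner_left
  exact (ContinuousLinearMap.apply ℝ E3 (EuclideanSpace.single i 1 : E3)).hasSum h

theorem continuous_bl {A W : E3 → (E3 →L[ℝ] E3)} (hA : Continuous A) (hW : Continuous W) :
    Continuous (fun y => bl (A y) (W y)) := by
  unfold bl
  apply continuous_finsetSum
  intro i _
  exact (hA.clm_apply continuous_const).inner (hW.clm_apply continuous_const)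

section

variable {s : ℝ} {φ : 𝓢(E3, E3)} {x : ℕ → ℝ} {u : E3 → E3}

theorem fderiv_packet (n : ℕ) (y : E3) :
    fderiv ℝ (packet s φ n) y =
      s ^ (3 * n) • (fderiv ℝ φ (s ^ (2 * n) • y)).comp (dil (s ^ (2 * n))) := by
  rw [packet_eq]
  have h1 : DifferentiableAt ℝ φ (dil (s ^ (2 * n)) y) := φ.differentiableAt
  have h2 : HasFDerivAt (φ ∘ dil (s ^ (2 * n)))
      ((fderiv ℝ φ (dil (s ^ (2 * n)) y)).comp (dil (s ^ (2 * n)))) y :=
    h1.hasFDerivAt.comp y (dil (s ^ (2 * n))).hasFDerivAt
  exact (h2.const_smul (s ^ (3 * n))).fderiv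

theorem div_packet (hdiv : ∀ y, ∑ i : Fin 3, (fderiv ℝ φ y (EuclideanSpace.single i 1)) i = 0)
    (n : ℕ) (y : E3) :
    ∑ i : Fin 3, (fderiv ℝ (packet s φ n) y (EuclideanSpace.single i 1)) i = 0 := by
  have h1 : ∀ i : Fin 3, (fderiv ℝ (packet s φ n) y (EuclideanSpace.single i 1)) i =
      s ^ (3 * n) * s ^ (2 * n) *
        (fderiv ℝ φ (s ^ (2 * n) • y) (EuclideanSpace.single i 1)) i := by
    intro i
    rw [fderiv_packet, smul_apply, ContinuousLinearMap.comp_apply, dil_apply,
      map_smul, smul_smul]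
    rfl
  rw [Finset.sum_congr rfl fun i _ => h1 i, ← Finset.mul_sum, hdiv, mul_zero]

theorem divg_eq (A : E3 →L[ℝ] E3) : ∑ i : Fin 3, (A (EuclideanSpace.single i 1)) i =
    bl A (ContinuousLinearMap.id ℝ E3) := by
  unfold bl
  refine Finset.sum_congr rfl fun i _ => ?_
  rw [ContinuousLinearMap.id_apply, EuclideanSpace.inner_single_right]
  simp

theorem div_u (hs : 1 < s)
    (hdiv : ∀ y, ∑ i : Fin 3, (fderiv ℝ φ y (EuclideanSpace.single i 1)) i = 0)
    (hx : Rap s x) (hu : ∀ y, HasSum (fun n => x n • packet s φ n y) (u y)) (y : E3) :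
    divg u y = 0 := by
  have h1 := hasSum_bl (fderiv_sum hs hx hu y) (ContinuousLinearMap.id ℝ E3)
  have h3 : (fun n => bl (x n • fderiv ℝ (packet s φ n) y) (ContinuousLinearMap.id ℝ E3)) =
      fun _ => 0 := by
    funext n
    rw [bl_smul, ← divg_eq, div_packet hdiv, mul_zero]
  rw [h3] at h1
  have h4 : divg u y = bl (fderiv ℝ u y) (ContinuousLinearMap.id ℝ E3) := by
    rw [← divg_eq]
    rfl
  rw [h4]
  exact h1.unique hasSum_zero

/-- pairing with a Schwartz field -/
theorem pair_sum (hs : 1 < s) (hx : Rap s x)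
    (hu : ∀ y, HasSum (fun n => x n • packet s φ n y) (u y)) (w : E3 → E3) (v : 𝓢(E3, E3))
    (hv : ∀ y, v y = w y) :
    HasSum (fun n => x n * ∫ y, inner ℝ (packet s φ n y) (w y)) (∫ y, inner ℝ (u y) (w y)) := by
  obtain ⟨K, hK, hKb⟩ := packet_bound (φ := φ) hs
  obtain ⟨-, -, -, -, hwc, -, hwi, -⟩ := u_bound v hv
  have h1 := hasSum_int (F := fun n y => x n * inner ℝ (packet s φ n y) (w y))
    (f := fun y => inner ℝ (u y) (w y)) (G := fun y => ‖w y‖)
    (a := fun n => |x n| * (K * s ^ (3 * n)))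
    (fun n => continuous_const.mul ((packet_contDiff s φ n).continuous.inner hwc)) hwi
    (hx.summable hs 3 K) (by
      intro n y
      rw [abs_mul, mul_assoc]
      apply mul_le_mul_of_nonneg_left _ (abs_nonneg _)
      exact (abs_real_inner_le_norm _ _).trans
        (mul_le_mul_of_nonneg_right (hKb n y) (norm_nonneg _))) (by
      intro y
      have h2 := hasSum_inner_left (hu y) (w y)
      refine h2.congr_fun ?_
      intro n
      exact (real_inner_smul_left _ _ _).symm)
  refine h1.congr_fun ?_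
  intro n
  exact (integral_const_mul _ _).symm

theorem grad_sum (hs : 1 < s) (hx : Rap s x)
    (hu : ∀ y, HasSum (fun n => x n • packet s φ n y) (u y)) (w : E3 → E3) (v : 𝓢(E3, E3))
    (hv : ∀ y, v y = w y) :
    HasSum (fun n => x n * gradIn (packet s φ n) w) (gradIn u w) := by
  obtain ⟨K, hK, hKb⟩ := fderiv_packet_bound (φ := φ) hs
  obtain ⟨-, -, -, -, -, hwc, -, hwi⟩ := u_bound v hv
  have h1 := hasSum_int (F := fun n y => x n * bl (fderiv ℝ (packet s φ n) y) (fderiv ℝ w y))
    (f := fun y => bl (fderiv ℝ u y) (fderiv ℝ w y)) (G := fun y => ‖fderiv ℝ w y‖)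
    (a := fun n => |x n| * ((3 * K) * s ^ (5 * n)))
    (fun n => continuous_const.mul (continuous_bl
      ((packet_contDiff s φ n).continuous_fderiv (by simp)) hwc)) hwi
    (hx.summable hs 5 (3 * K)) (by
      intro n y
      rw [abs_mul, mul_assoc]
      apply mul_le_mul_of_nonneg_left _ (abs_nonneg _)
      refine (bl_bound _ _).trans ?_
      apply mul_le_mul_of_nonneg_right _ (norm_nonneg _)
      rw [mul_assoc]
      exact mul_le_mul_of_nonneg_left (hKb n y) (by norm_num)) (by
      intro y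
      have h2 := hasSum_bl (fderiv_sum hs hx hu y) (fderiv ℝ w y)
      refine h2.congr_fun ?_
      intro n
      exact (bl_smul _ _ _).symm)
  refine h1.congr_fun ?_
  intro n
  rw [gradIn_eq]
  exact (integral_const_mul _ _).symm

/-- expanding the first slot of the trilinear form -/
theorem tri_sum1 (hs : 1 < s) (hx : Rap s x)
    (hu : ∀ y, HasSum (fun n => x n • packet s φ n y) (u y)) (w z : E3 → E3) (v v' : 𝓢(E3, E3))
    (hv : ∀ y, v y = w y) (hv' : ∀ y, v' y = z y) :
    HasSum (fun n => x n * tri (packet s φ n) w z) (tri u w z) := by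
  obtain ⟨K, hK, hKb⟩ := packet_bound (φ := φ) hs
  obtain ⟨K', hK', -, hKb', -, hwc, -, -⟩ := u_bound v hv
  obtain ⟨-, -, -, -, hzc, -, hzi, -⟩ := u_bound v' hv'
  have h1 := hasSum_int
    (F := fun n y => x n * inner ℝ (fderiv ℝ w y (packet s φ n y)) (z y))
    (f := fun y => inner ℝ (fderiv ℝ w y (u y)) (z y)) (G := fun y => ‖z y‖)
    (a := fun n => |x n| * ((K' * K) * s ^ (3 * n)))
    (fun n => continuous_const.mul
      ((hwc.clm_apply (packet_contDiff s φ n).continuous).inner hzc)) hzi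
    (hx.summable hs 3 (K' * K)) (by
      intro n y
      rw [abs_mul, mul_assoc]
      apply mul_le_mul_of_nonneg_left _ (abs_nonneg _)
      refine (abs_real_inner_le_norm _ _).trans ?_
      apply mul_le_mul_of_nonneg_right _ (norm_nonneg _)
      rw [mul_assoc]
      refine ((fderiv ℝ w y).le_opNorm _).trans ?_
      exact mul_le_mul (hKb' y) (hKb n y) (norm_nonneg _) hK') (by
      intro y
      have h2 := hasSum_inner_left ((fderiv ℝ w y).hasSum (hu y)) (z y)
      refine h2.congr_fun ?_
      intro n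
      rw [map_smul]
      exact (real_inner_smul_left _ _ _).symm)
  refine h1.congr_fun ?_
  intro n
  exact (integral_const_mul _ _).symm

/-- expanding the second slot of the trilinear form -/
theorem tri_sum2 (hs : 1 < s) (hx : Rap s x)
    (hu : ∀ y, HasSum (fun n => x n • packet s φ n y) (u y)) (w z : E3 → E3) (v v' : 𝓢(E3, E3))
    (hv : ∀ y, v y = w y) (hv' : ∀ y, v' y = z y) :
    HasSum (fun n => x n * tri w (packet s φ n) z) (tri w u z) := by
  obtain ⟨K, hK, hKb⟩ := fderiv_packet_bound (φ := φ) hs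
  obtain ⟨K', hK', hKb', -, hwc, -, -, -⟩ := u_bound v hv
  obtain ⟨-, -, -, -, hzc, -, hzi, -⟩ := u_bound v' hv'
  have h1 := hasSum_int
    (F := fun n y => x n * inner ℝ (fderiv ℝ (packet s φ n) y (w y)) (z y))
    (f := fun y => inner ℝ (fderiv ℝ u y (w y)) (z y)) (G := fun y => ‖z y‖)
    (a := fun n => |x n| * ((K * K') * s ^ (5 * n)))
    (fun n => continuous_const.mul
      ((((packet_contDiff s φ n).continuous_fderiv (by simp)).clm_apply hwc).inner hzc)) hzi
    (hx.summable hs 5 (K * K')) (by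
      intro n y
      rw [abs_mul, mul_assoc]
      apply mul_le_mul_of_nonneg_left _ (abs_nonneg _)
      refine (abs_real_inner_le_norm _ _).trans ?_
      apply mul_le_mul_of_nonneg_right _ (norm_nonneg _)
      have e : K * K' * s ^ (5 * n) = (K * s ^ (5 * n)) * K' := by ring
      rw [e]
      refine ((fderiv ℝ (packet s φ n) y).le_opNorm _).trans ?_
      exact mul_le_mul (hKb n y) (hKb' y) (norm_nonneg _)
        ((norm_nonneg _).trans (hKb n y))) (by
      intro y
      have h2 := hasSum_inner_left ((ContinuousLinearMap.apply ℝ E3 (w y)).hasSum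
        (fderiv_sum hs hx hu y)) (z y)
      refine h2.congr_fun ?_
      intro n
      exact (real_inner_smul_left _ _ _).symm)
  refine h1.congr_fun ?_
  intro n
  exact (integral_const_mul _ _).symm

end

end Pool.Agent.Y68.NS
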