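import Pool.Agent.Y5.Stm2

/-!
Sums of packets with rapidly decreasing coefficients.
-/

open Set Filter Topology MeasureTheory
open scoped SchwartzMap ContDiff

set_option autoImplicit false

namespace Pool.Agent.Y68.NS

open Pool.Agent.Y5

/-- The dilation. -/
noncomputable def dil (c : ℝ) : E3 →L[ℝ] E3 := c • ContinuousLinearMap.id ℝ E3

theorem dil_apply (c : ℝ) (y : E3) : dil c y = c • y := rfl

theorem norm_dil (c : ℝ) (hc : 0 ≤ c) : ‖dil c‖ ≤ c := by
  unfold dil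
  rw [norm_smul, Real.norm_of_nonneg hc]
  calc c * ‖ContinuousLinearMap.id ℝ E3‖ ≤ c * 1 :=
        mul_le_mul_of_nonneg_left ContinuousLinearMap.norm_id_le hc
    _ = c := mul_one c

theorem packet_eq (s : ℝ) (φ : E3 → E3) (n : ℕ) :
    packet s φ n = s ^ (3 * n) • (φ ∘ dil (s ^ (2 * n))) := rfl

theorem packet_contDiff (s : ℝ) (φ : 𝓢(E3, E3)) (n : ℕ) : ContDiff ℝ ∞ (packet s φ n) := by
  rw [packet_eq]
  exact ContDiff.const_smul (s ^ (3 * n)) (φ.smooth'.comp (dil (s ^ (2 * n))).contDiff)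

/-- derivatives of packets -/
theorem packet_decay (s : ℝ) (hs : 1 < s) (φ : 𝓢(E3, E3)) (k l : ℕ) :
    ∃ K : ℝ, 0 < K ∧ ∀ (n : ℕ) (y : E3),
      ‖y‖ ^ k * ‖iteratedFDeriv ℝ l (packet s φ n) y‖ ≤ K * s ^ ((3 + 2 * l) * n) := by
  have hs0 : 0 < s := zero_lt_one.trans hs
  obtain ⟨K, hK, hdec⟩ := φ.decay k l
  refine ⟨K, hK, fun n y => ?_⟩
  have h0 : ContDiffAt ℝ l (φ ∘ dil (s ^ (2 * n))) y :=
    ((φ.smooth'.comp (dil _).contDiff).of_le (by exact_mod_cast le_top)).contDiffAt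
  have h1 : iteratedFDeriv ℝ l (packet s φ n) y =
      s ^ (3 * n) • iteratedFDeriv ℝ l (φ ∘ dil (s ^ (2 * n))) y := by
    rw [packet_eq]
    exact iteratedFDeriv_const_smul_apply h0
  have h2 : iteratedFDeriv ℝ l (φ ∘ dil (s ^ (2 * n))) y =
      (iteratedFDeriv ℝ l φ (dil (s ^ (2 * n)) y)).compContinuousLinearMap
        fun _ => dil (s ^ (2 * n)) :=
    (dil (s ^ (2 * n))).iteratedFDeriv_comp_right φ.smooth' y (by exact_mod_cast le_top)
  have h3 : ‖iteratedFDeriv ℝ l (φ ∘ dil (s ^ (2 * n))) y‖ ≤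
      ‖iteratedFDeriv ℝ l φ (s ^ (2 * n) • y)‖ * (s ^ (2 * n)) ^ l := by
    rw [h2]
    refine (ContinuousMultilinearMap.norm_compContinuousLinearMap_le _ _).trans ?_
    rw [dil_apply]
    apply mul_le_mul_of_nonneg_left _ (norm_nonneg _)
    rw [Finset.prod_const, Finset.card_univ, Fintype.card_fin]
    exact pow_le_pow_left₀ (norm_nonneg _) (norm_dil _ (pow_pos hs0 _).le) l
  have h4 : ‖y‖ ^ k ≤ ‖s ^ (2 * n) • y‖ ^ k := by
    apply pow_le_pow_left₀ (norm_nonneg _)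
    rw [norm_smul, Real.norm_of_nonneg (pow_pos hs0 _).le]
    exact le_mul_of_one_le_left (norm_nonneg _) (one_le_pow₀ hs.le)
  rw [h1, norm_smul, Real.norm_of_nonneg (pow_pos hs0 _).le]
  calc ‖y‖ ^ k * (s ^ (3 * n) * ‖iteratedFDeriv ℝ l (φ ∘ dil (s ^ (2 * n))) y‖)
      ≤ ‖s ^ (2 * n) • y‖ ^ k * (s ^ (3 * n) *
        (‖iteratedFDeriv ℝ l φ (s ^ (2 * n) • y)‖ * (s ^ (2 * n)) ^ l)) := by gcongr
    _ = (‖s ^ (2 * n) • y‖ ^ k * ‖iteratedFDeriv ℝ l φ (s ^ (2 * n) • y)‖) *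
        (s ^ (3 * n) * (s ^ (2 * n)) ^ l) := by ring
    _ ≤ K * (s ^ (3 * n) * (s ^ (2 * n)) ^ l) :=
        mul_le_mul_of_nonneg_right (hdec _) (by positivity)
    _ = K * s ^ ((3 + 2 * l) * n) := by
        rw [← pow_mul, ← pow_add]
        congr 2
        ring

/-- rapidly decreasing coefficients -/
def Rap (s : ℝ) (x : ℕ → ℝ) : Prop := ∀ k : ℕ, ∃ M, ∀ n, s ^ (k * n) * |x n| ≤ M

theorem Rap.summable {s : ℝ} (hs : 1 < s) {x : ℕ → ℝ} (hx : Rap s x) (k : ℕ) (K : ℝ) :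
    Summable (fun n => |x n| * (K * s ^ (k * n))) := by
  have hs0 : 0 < s := zero_lt_one.trans hs
  obtain ⟨M, hM⟩ := hx (k + 1)
  have h1 : Summable (fun n : ℕ => (M * |K|) * (s⁻¹) ^ n) :=
    (summable_geometric_of_lt_one (inv_nonneg.2 hs0.le) (inv_lt_one_of_one_lt₀ hs)).mul_left _
  apply Summable.of_norm_bounded h1
  intro n
  rw [Real.norm_eq_abs, abs_mul, abs_abs, abs_mul, abs_of_pos (pow_pos hs0 _)]
  have h2 : |x n| * (|K| * s ^ (k * n)) = (s ^ ((k + 1) * n) * |x n|) * (|K| * (s⁻¹) ^ n) := by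
    have h3 : s ^ ((k + 1) * n) = s ^ (k * n) * s ^ n := by rw [← pow_add]; congr 1; ring
    rw [h3, inv_pow]
    have : s ^ n ≠ 0 := (pow_pos hs0 _).ne'
    field_simp
  rw [h2]
  calc (s ^ ((k + 1) * n) * |x n|) * (|K| * (s⁻¹) ^ n) ≤ M * (|K| * (s⁻¹) ^ n) :=
        mul_le_mul_of_nonneg_right (hM n) (by positivity)
    _ = M * |K| * (s⁻¹) ^ n := by ring

section

variable {s : ℝ} {φ : 𝓢(E3, E3)} {x : ℕ → ℝ}

theorem term_decay (hs : 1 < s) (k l : ℕ) :
    ∃ K : ℝ, 0 < K ∧ ∀ (n : ℕ) (y : E3),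
      ‖y‖ ^ k * ‖iteratedFDeriv ℝ l (fun z => x n • packet s φ n z) y‖ ≤
        |x n| * (K * s ^ ((3 + 2 * l) * n)) := by
  obtain ⟨K, hK, h⟩ := packet_decay s hs φ k l
  refine ⟨K, hK, fun n y => ?_⟩
  have h0 : ContDiffAt ℝ l (packet s φ n) y :=
    ((packet_contDiff s φ n).of_le (by exact_mod_cast le_top)).contDiffAt
  have h1 : iteratedFDeriv ℝ l (fun z => x n • packet s φ n z) y =
      x n • iteratedFDeriv ℝ l (packet s φ n) y :=
    iteratedFDeriv_const_smul_apply (a := x n) h0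
  rw [h1, norm_smul, Real.norm_eq_abs]
  calc ‖y‖ ^ k * (|x n| * ‖iteratedFDeriv ℝ l (packet s φ n) y‖)
      = |x n| * (‖y‖ ^ k * ‖iteratedFDeriv ℝ l (packet s φ n) y‖) := by ring
    _ ≤ _ := mul_le_mul_of_nonneg_left (h n y) (abs_nonneg _)

theorem term_contDiff (n : ℕ) : ContDiff ℝ ∞ (fun z => x n • packet s φ n z) :=
  (packet_contDiff s φ n).const_smul (x n)

theorem packet_bound (hs : 1 < s) : ∃ K : ℝ, 0 < K ∧ ∀ (n : ℕ) (y : E3),
    ‖packet s φ n y‖ ≤ K * s ^ (3 * n) := by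
  obtain ⟨K, hK, h⟩ := packet_decay s hs φ 0 0
  refine ⟨K, hK, fun n y => ?_⟩
  have := h n y
  rw [pow_zero, one_mul, norm_iteratedFDeriv_zero] at this
  exact this

theorem fderiv_packet_bound (hs : 1 < s) : ∃ K : ℝ, 0 < K ∧ ∀ (n : ℕ) (y : E3),
    ‖fderiv ℝ (packet s φ n) y‖ ≤ K * s ^ (5 * n) := by
  obtain ⟨K, hK, h⟩ := packet_decay s hs φ 0 1
  refine ⟨K, hK, fun n y => ?_⟩
  have := h n y
  rw [pow_zero, one_mul, norm_iteratedFDeriv_one] at this
  exact this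

theorem summable_packet (hs : 1 < s) (hx : Rap s x) (y : E3) :
    Summable (fun n => x n • packet s φ n y) := by
  obtain ⟨K, hK, h⟩ := packet_bound (φ := φ) hs
  apply Summable.of_norm_bounded (hx.summable hs 3 K)
  intro n
  rw [norm_smul, Real.norm_eq_abs]
  exact mul_le_mul_of_nonneg_left (h n y) (abs_nonneg _)

/-- the sum is a Schwartz function -/
theorem exists_schwartz (hs : 1 < s) (hx : Rap s x) {u : E3 → E3}
    (hu : ∀ y, HasSum (fun n => x n • packet s φ n y) (u y)) : ∃ v : 𝓢(E3, E3), ∀ y, v y = u y := by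
  have hu' : u = fun y => ∑' n, x n • packet s φ n y := funext fun y => (hu y).tsum_eq.symm
  choose K hK hdec using fun k l => term_decay (s := s) (φ := φ) (x := x) hs k l
  have hv : ∀ k : ℕ, (k : ℕ∞) ≤ (⊤ : ℕ∞) →
      Summable (fun n => |x n| * (K 0 k * s ^ ((3 + 2 * k) * n))) :=
    fun k _ => hx.summable hs _ _
  have hbd : ∀ (k : ℕ) (n : ℕ) (y : E3), (k : ℕ∞) ≤ (⊤ : ℕ∞) →
      ‖iteratedFDeriv ℝ k (fun z => x n • packet s φ n z) y‖ ≤
        |x n| * (K 0 k * s ^ ((3 + 2 * k) * n)) := by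
    intro k n y _
    have := hdec 0 k n y
    rwa [pow_zero, one_mul] at this
  have hsm : ContDiff ℝ ∞ u := by
    rw [hu']
    exact contDiff_tsum (fun n => term_contDiff n) hv hbd
  refine ⟨⟨u, hsm, ?_⟩, fun y => rfl⟩
  intro k l
  refine ⟨∑' n, |x n| * (K k l * s ^ ((3 + 2 * l) * n)), fun y => ?_⟩
  rw [hu', iteratedFDeriv_tsum (fun n => term_contDiff n) hv hbd le_top]
  have hsum : Summable (fun n => iteratedFDeriv ℝ l (fun z => x n • packet s φ n z) y) :=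
    Summable.of_norm_bounded (hv l le_top) (fun n => hbd l n y le_top)
  have h1 : ‖y‖ ^ k * ‖∑' n, iteratedFDeriv ℝ l (fun z => x n • packet s φ n z) y‖ =
      ‖∑' n, ‖y‖ ^ k • iteratedFDeriv ℝ l (fun z => x n • packet s φ n z) y‖ := by
    rw [hsum.tsum_const_smul, norm_smul, Real.norm_of_nonneg (pow_nonneg (norm_nonneg _) _)]
  rw [h1]
  apply tsum_of_norm_bounded ((hx.summable hs (3 + 2 * l) (K k l)).hasSum)
  intro n
  rw [norm_smul, Real.norm_of_nonneg (pow_nonneg (norm_nonneg _) _)]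
  exact hdec k l n y

theorem fderiv_sum (hs : 1 < s) (hx : Rap s x) {u : E3 → E3}
    (hu : ∀ y, HasSum (fun n => x n • packet s φ n y) (u y)) (y : E3) :
    HasSum (fun n => x n • fderiv ℝ (packet s φ n) y) (fderiv ℝ u y) := by
  have hu' : u = fun y => ∑' n, x n • packet s φ n y := funext fun y => (hu y).tsum_eq.symm
  obtain ⟨K, hK, h⟩ := fderiv_packet_bound (φ := φ) hs
  have hd : ∀ n, Differentiable ℝ (packet s φ n) := fun n =>
    (packet_contDiff s φ n).differentiable (by simp)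
  have hfd : ∀ n y, fderiv ℝ (fun z => x n • packet s φ n z) y =
      x n • fderiv ℝ (packet s φ n) y := fun n y => fderiv_const_smul (hd n y) (x n)
  have hbd : ∀ n y, ‖fderiv ℝ (fun z => x n • packet s φ n z) y‖ ≤
      |x n| * (K * s ^ (5 * n)) := by
    intro n y
    rw [hfd, norm_smul, Real.norm_eq_abs]
    exact mul_le_mul_of_nonneg_left (h n y) (abs_nonneg _)
  have h1 := fderiv_tsum (f := fun n z => x n • packet s φ n z) (x₀ := (0 : E3))
    (hx.summable hs 5 K) (fun n => (hd n).const_smul (x n)) hbd (hu 0).summable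
  rw [hu', h1]
  have h2 : Summable (fun n => x n • fderiv ℝ (packet s φ n) y) := by
    apply Summable.of_norm_bounded (hx.summable hs 5 K)
    intro n
    rw [← hfd]
    exact hbd n y
  have h3 : (fun n => fderiv ℝ (fun z => x n • packet s φ n z) y) =
      fun n => x n • fderiv ℝ (packet s φ n) y := funext fun n => hfd n y
  simp only
  rw [h3]
  exact h2.hasSum

theorem u_bound {u : E3 → E3} (v : 𝓢(E3, E3)) (hv : ∀ y, v y = u y) :
    ∃ K : ℝ, 0 ≤ K ∧ (∀ y, ‖u y‖ ≤ K) ∧ (∀ y, ‖fderiv ℝ u y‖ ≤ K) ∧ Continuous u ∧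
      Continuous (fderiv ℝ u) ∧ Integrable (fun y => ‖u y‖) ∧
      Integrable (fun y => ‖fderiv ℝ u y‖) := by
  have hu : u = v := funext fun y => (hv y).symm
  obtain ⟨K0, hK0, h0⟩ := v.decay 0 0
  obtain ⟨K1, hK1, h1⟩ := v.decay 0 1
  refine ⟨max K0 K1, hK0.le.trans (le_max_left _ _), ?_, ?_, ?_, ?_, ?_, ?_⟩
  · intro y
    have := h0 y
    rw [pow_zero, one_mul, norm_iteratedFDeriv_zero] at this
    rw [hu]
    exact this.trans (le_max_left _ _)
  · intro y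
    have := h1 y
    rw [pow_zero, one_mul, norm_iteratedFDeriv_one] at this
    rw [hu]
    exact this.trans (le_max_right _ _)
  · rw [hu]; exact v.continuous
  · rw [hu]; exact v.smooth'.continuous_fderiv (by simp)
  · rw [hu]; exact v.integrable.norm
  · rw [hu]; exact (SchwartzMap.fderivCLM ℝ E3 E3 v).integrable.norm

/-- packets are Schwartz -/
theorem packet_schwartz (hs : 1 < s) (n : ℕ) : ∃ v : 𝓢(E3, E3), ∀ y, v y = packet s φ n y := by
  refine ⟨⟨packet s φ n, packet_contDiff s φ n, ?_⟩, fun y => rfl⟩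
  intro k l
  obtain ⟨K, hK, h⟩ := packet_decay s hs φ k l
  exact ⟨K * s ^ ((3 + 2 * l) * n), fun y => h n y⟩

end

/-- interchange of sum and integral -/
theorem hasSum_int {F : ℕ → E3 → ℝ} {f G : E3 → ℝ} {a : ℕ → ℝ} (hF : ∀ i, Continuous (F i))
    (hG : Integrable G) (ha : Summable a)
    (hb : ∀ i y, |F i y| ≤ a i * G y) (hf : ∀ y, HasSum (fun i => F i y) (f y)) :
    HasSum (fun i => ∫ y, F i y) (∫ y, f y) := by
  have hint : ∀ i, Integrable (F i) := fun i =>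
    (hG.const_mul (a i)).mono' (hF i).aestronglyMeasurable (ae_of_all _ fun y => hb i y)
  have h1 : (fun y => ∑' i, F i y) = f := funext fun y => (hf y).tsum_eq
  rw [← h1]
  apply hasSum_integral_of_summable_integral_norm hint
  apply Summable.of_nonneg_of_le (fun i => integral_nonneg fun y => norm_nonneg _) _
    (ha.mul_right (∫ y, G y))
  intro i
  rw [← integral_const_mul]
  exact integral_mono (hint i).norm (hG.const_mul _) (fun y => hb i y)

end Pool.Agent.Y68.NS
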